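import Mathlib
import Pool.Agent.W917.Flip.FinCase

/-!
# MP_3937af_lc: automorphisms of the power set modulo the finite sets

Adding Cohen reals indexed by `κ`: flip the `x`-th bit of the generic sequence when the membership
of `x` is evaluated. This is well defined modulo finite sets, since each condition decides only
finitely many bits.
-/

namespace Pool.Agent.Results.MP_3937af_lc.NowhereTrivial

open Cardinal Pool.Agent.H65R3.Forc Pool.Agent.W917.Flip

/-- For every uncountable cardinal `κ` there is a nonempty forcing notion `P`, every condition of
which forces that all cardinals of the ground model are still cardinals, and that the quotient of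
the power set of `κ` by the ideal of the finite sets has an automorphism which is not trivial on
any subset of `κ` with countable complement. -/
theorem result (κ : Cardinal.{0}) (hκ : ℵ₀ < κ) :
    ∃ (P : Type) (_ : Preorder P), Nonempty P ∧ ∀ p : P,
      (∀ μ : Cardinal.{0}, ℵ₀ ≤ μ → p ∈ StaysCardinal P μ) ∧ p ∈ HasAutFin P (K κ) := by
  refine ⟨Pool.Agent.H631R2.Cond (K κ), inferInstance, ⟨⟨∅, by simp⟩⟩,
    fun p => ⟨fun μ hμ => staysCardinal hμ p, ?_⟩⟩
  refine mem_fex_of_mem (TT (K κ)) (down_fand ?_ ?_) ⟨isAut_TT ideal_fin finSet_eq p,
    fin_nontrivial (by rw [mk_K]; exact not_le.2 hκ) p⟩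
  · exact down_fand (down_fand (down_fall fun _ => down_fex _) (down_fall fun _ => down_fex _))
      (down_fall fun _ => down_fall fun _ => down_fall fun _ => down_fall fun _ => down_fimp _ _)
  · exact down_fall fun _ => down_fimp _ _

end Pool.Agent.Results.MP_3937af_lc.NowhereTrivial
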